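import Pool.Agent.Helper4.It.Goals

/-!
# Packet T3: the lattice distance of a lifted simplex
-/

namespace Mono

namespace It

open Finset Filter Topology Mono.Comp

namespace T3

theorem bezout {ι : Type} (s : Finset ι) (N : ι → ℕ) :
    ∃ c : ι → ℤ, ∑ j ∈ s, c j * (N j : ℤ) = (s.gcd N : ℕ) := by
  classical
  induction s using Finset.induction_on with
  | empty => exact ⟨0, by simp⟩
  | insert a s ha ih =>
    obtain ⟨c, hc⟩ := ih
    refine ⟨fun j => if j = a then Nat.gcdA (N a) (s.gcd N) else Nat.gcdB (N a) (s.gcd N) * c j,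
      ?_⟩
    rw [sum_insert ha, Finset.gcd_insert]
    beta_reduce
    rw [if_pos rfl]
    have h1 : ∑ j ∈ s, (if j = a then Nat.gcdA (N a) (s.gcd N) else
        Nat.gcdB (N a) (s.gcd N) * c j) * (N j : ℤ) =
        Nat.gcdB (N a) (s.gcd N) * ∑ j ∈ s, c j * (N j : ℤ) := by
      rw [mul_sum]
      refine sum_congr rfl fun j hj => ?_
      have hja : j ≠ a := by
        rintro rfl
        exact ha hj
      rw [if_neg hja]
      ring
    rw [h1, hc]
    have h2 := Nat.gcd_eq_gcd_ab (N a) (s.gcd N)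
    have h3 : (GCDMonoid.gcd (N a) (s.gcd N) : ℕ) = Nat.gcd (N a) (s.gcd N) := rfl
    rw [h3, h2]
    ring

theorem dot_blk {n k : ℕ} (blk : Fin n → Fin k) (f : Fin n → ℤ) :
    ∑ j, f j = ∑ i, ∑ j ∈ univ.filter (fun j => blk j = i), f j :=
  (Finset.sum_fiberwise univ blk f).symm

end T3

theorem liftLat : LiftLat := by
  intro n k blk N hb hN τ
  unfold latDist
  congr 1
  ext M
  simp only [Set.mem_ofPred_eq]
  refine and_congr_right fun _ => ?_
  constructor
  · rintro ⟨κ, h⟩
    refine ⟨fun i => ∑ j ∈ univ.filter (fun j => blk j = i),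
      κ j * ((N j / blkGcd blk N i : ℕ) : ℤ), fun v hv => ?_⟩
    obtain ⟨u, hu, rfl⟩ := mem_image.1 hv
    rw [← h (lift blk N u) (mem_image_of_mem _ hu)]
    unfold dotProduct lift
    rw [T3.dot_blk blk]
    refine sum_congr rfl fun i _ => ?_
    rw [sum_mul]
    refine sum_congr rfl fun j hj => ?_
    have h1 : blkGcd blk N i ∣ N j := Finset.gcd_dvd hj
    have h2 : ((N j / blkGcd blk N i : ℕ) : ℤ) * (blkGcd blk N i : ℤ) = N j := by
      exact_mod_cast Nat.div_mul_cancel h1
    rw [(mem_filter.1 hj).2, ← h2]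
    ring
  · rintro ⟨κ, h⟩
    choose c hc using fun i => T3.bezout (univ.filter (fun j => blk j = i)) N
    refine ⟨fun j => c (blk j) j * κ (blk j), fun v hv => ?_⟩
    obtain ⟨u, hu, rfl⟩ := mem_image.1 hv
    rw [← h _ (mem_image_of_mem _ hu)]
    unfold dotProduct lift
    rw [T3.dot_blk blk]
    refine sum_congr rfl fun i _ => ?_
    have h1 : ∀ j ∈ univ.filter (fun j => blk j = i), c (blk j) j * κ (blk j) *
        ((N j : ℤ) * u (blk j)) = (c i j * (N j : ℤ)) * (κ i * u i) := by
      intro j hj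
      rw [(mem_filter.1 hj).2]
      ring
    rw [sum_congr rfl h1, ← sum_mul, hc i]
    unfold blkGcd
    ring

end It

end Mono
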