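import Pool.Agent.Helper4.It.Goals
import Pool.Agent.Helper5.Comp.G6

/-!
# Packet T7: Möbius inversion for the twisted zeta functions
-/

namespace Mono

namespace It

open Finset Filter Topology Mono.Comp

namespace T7

theorem latDist_insert {k : ℕ} (τ : Finset (Fin k → ℤ)) (p : Fin k → ℤ) (i : Fin k)
    (hτ : ∀ u ∈ τ, u i = 0) (hp : p i = 1) : latDist (insert p τ) = latDist τ := by
  unfold latDist
  congr 1
  ext N
  simp only [Set.mem_setOf_eq]
  constructor
  · rintro ⟨h0, κ, h⟩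
    exact ⟨h0, κ, fun u hu => h u (mem_insert_of_mem hu)⟩
  · rintro ⟨h0, κ, h⟩
    refine ⟨h0, κ + Pi.single i ((N : ℤ) - κ ⬝ᵥ p), fun u hu => ?_⟩
    rw [add_dotProduct, single_dotProduct]
    rcases mem_insert.1 hu with rfl | hu
    · rw [hp]
      ring
    · rw [hτ u hu, h u hu]
      ring

theorem apex (hVH : VolHeight) (k e₀ : ℕ) (e : Fin k → ℕ) (V : Finset (Fin k))
    (hV : ∀ i, i ∉ V → e i = 1) : ApexInv V (vTE e₀ e) := by
  intro τ p i hi hτ hp
  unfold vTE
  refine sum_congr rfl fun d hd => ?_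
  congr 1
  have hdi : d i = 1 := by
    have := Fintype.mem_piFinset.1 hd i
    rw [hV i hi] at this
    simpa using this
  have h1 : ∀ u ∈ τ.image (fun u i => (d i : ℤ) * u i), u i = 0 := by
    intro u hu
    obtain ⟨u', hu', rfl⟩ := mem_image.1 hu
    simp [hτ u' hu']
  have h2 : (fun i => (d i : ℤ) * p i) i = 1 := by simp [hdi, hp]
  unfold vT
  rw [image_insert, latDist_insert _ _ i h1 h2]
  congr 1
  unfold vG
  rw [image_insert]
  congr 2
  exact hVH k _ _ i h1 h2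

theorem ext_sum (k e₀ : ℕ) (Z : Finset (Fin k → ℤ)) (Φ : Fan k) (s : ℝ)
    (F : (Fin k → ℕ) → (Fin k → Multiset ℝ) → ℝ)
    (hF : ∀ D, (∀ i, 0 < D i) → Ext Φ (WR Φ (vT e₀ D) Z s) (F D))
    (e : Fin k → ℕ) (he : ∀ i, 0 < e i) : Ext Φ (WR Φ (vTE e₀ e) Z s) (FE F e) := by
  constructor
  · intro n blk ρ θ hblk hρ
    unfold FE
    refine tendsto_finsetSum _ fun d hd => ?_
    exact ((hF d (G6.pos_of_mem he hd)).1 n blk ρ θ hblk hρ).const_mul _
  · intro S hS hpos hgen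
    have h1 : WR Φ (vTE e₀ e) Z s = fun w => ∑ d ∈ Fintype.piFinset (fun i => (e i).divisors),
        (∏ i, ((ArithmeticFunction.moebius (e i / d i) : ℤ) : ℝ)) * WR Φ (vT e₀ d) Z s w := by
      funext w
      exact G6.wr_sum _ _ Φ _ Z s w
    rw [h1, G6.dds_sum]
    unfold FE
    refine sum_congr rfl fun d hd => ?_
    rw [(hF d (G6.pos_of_mem he hd)).2 S hS hpos hgen]

end T7

theorem moebiusT (h : VolHeight) : MoebiusT :=
  ⟨fun k e₀ e V hV => T7.apex h k e₀ e V hV,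
    fun k e₀ Z Φ s F hF e he => T7.ext_sum k e₀ Z Φ s F hF e he⟩

end It

end Mono
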